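import Pool.Agent.H75.Lv.Iface

set_option autoImplicit false

/-! MP_2e6055, module INST: CONG, EXPL, ADMC (helper29). -/

namespace Pool.Agent.H29.Lv

open Pool.Agent.H7.UC Pool.Agent.H74.Tri Pool.Agent.H75.Perc Pool.Agent.H93.SM Pool.Agent.H75.Lv

theorem Ins.anti {U : Finset Fc} {ω : Fc → Bool} {p : Pos} {i j : ℕ} (hij : i ≤ j)
    (h : Ins U ω p j) : Ins U ω p i := fun i' h1 h2 => h i' h1 (h2.trans hij)

/-- while the interface is in `U`, the face ahead is in `U` or next to `U` -/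
theorem ph_near {U : Finset Fc} {ω : Fc → Bool} {p : Pos} (hp : IsTip U ω p) {i : ℕ}
    (h : Ins U ω p i) : ph (orb ω p i) ∈ U ∨ tch ↑U (ph (orb ω p i)) := by
  rcases Nat.eq_zero_or_pos i with h0 | h0
  · subst h0; exact Or.inl hp.1
  · right
    rcases (inE_pe U _).1 (h i h0 le_rfl) with h1 | h1
    · exact ⟨_, by exact_mod_cast h1, adj_hl _⟩
    · exact ⟨_, by exact_mod_cast h1, adj_hr _⟩

theorem cong : CONG := by
  intro U ω ω' p hp hω i
  induction i with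
  | zero =>
    intro _
    exact ⟨fun i' h1 h2 => absurd (h1.trans h2) (by decide), rfl⟩
  | succ i ih =>
    intro h
    have h0 : Ins U ω p i := Ins.anti (Nat.le_succ i) h
    obtain ⟨h1, h2⟩ := ih h0
    have h3 : orb ω' p (i + 1) = orb ω p (i + 1) := by
      rw [orb_succ, orb_succ, h2]
      unfold stp
      rw [← hω _ (ph_near hp h0)]
    refine ⟨?_, h3⟩
    intro i' h4 h5
    rcases Nat.lt_or_ge i' (i + 1) with h6 | h6
    · exact h1 i' h4 (by omega)
    · have h7 : i' = i + 1 := by omega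
      subst h7
      rw [h3]
      exact h _ h4 le_rfl

theorem rev_succ {ω : Fc → Bool} {p : Pos} {t : ℕ} {f : Fc} :
    f ∈ Rev ω p (t + 1) ↔ f ∈ Rev ω p t ∨ f = ph (orb ω p t) := by
  constructor
  · rintro ⟨i, hi, hf⟩
    rcases Nat.lt_or_ge i (t + 1) with h | h
    · exact Or.inl ⟨i, by omega, hf⟩
    · have hi' : i = t + 1 := by omega
      subst hi'
      rcases next_cases ω p t with ⟨h1, h2⟩ | ⟨h1, h2⟩
      · rw [h1, h2] at hf
        rcases hf with hf | hf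
        · exact Or.inr hf
        · exact Or.inl ⟨t, le_rfl, Or.inr hf⟩
      · rw [h1, h2] at hf
        rcases hf with hf | hf
        · exact Or.inl ⟨t, le_rfl, Or.inl hf⟩
        · exact Or.inr hf
  · rintro (h | h)
    · exact Rev.mono (Nat.le_succ t) h
    · subst h
      exact ⟨t + 1, le_rfl, ph_next ω p t⟩

theorem rev_zero {ω : Fc → Bool} {p : Pos} {f : Fc} : f ∈ Rev ω p 0 ↔ f = pl p ∨ f = pr p := by
  constructor
  · rintro ⟨i, hi, hf⟩
    have : i = 0 := by omega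
    subst this
    exact hf
  · intro hf; exact ⟨0, le_rfl, hf⟩

theorem rev_first {ω : Fc → Bool} {p : Pos} {t : ℕ} {f : Fc} (h : f ∈ Rev ω p t)
    (h0 : f ∉ Rev ω p 0) : ∃ t' < t, ph (orb ω p t') = f ∧ f ∉ Rev ω p t' := by
  induction t with
  | zero => exact absurd h h0
  | succ t ih =>
    by_cases ht : f ∈ Rev ω p t
    · obtain ⟨t', h1, h2⟩ := ih ht
      exact ⟨t', by omega, h2⟩
    · rcases rev_succ.1 h with h1 | h1
      · exact absurd h1 ht
      · exact ⟨t, by omega, h1.symm, ht⟩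

theorem expl_iff : EXPL := by
  intro U ω p hp i hi f
  rw [mem_expl]
  constructor
  · rintro ⟨h1, h2⟩
    have h0 : f ∉ Rev ω p 0 := by
      rw [rev_zero]
      rintro (h | h)
      · exact hp.2.1 (h ▸ h1)
      · exact hp.2.2.1 (h ▸ h1)
    obtain ⟨t, h3, h4, h5⟩ := rev_first h2 h0
    exact ⟨t, h3, Ins.anti h3.le hi, h4, h1, h5⟩
  · rintro ⟨t, h1, h2, h3, h4, h5⟩
    exact ⟨h4, Rev.mono (Nat.succ_le_of_lt h1) (rev_succ.2 (Or.inr h3.symm))⟩

theorem expl : EXPL := expl_iff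

/-- transport of `Ask` -/
theorem Ask.congr {U : Finset Fc} {ω ω' : Fc → Bool} {p : Pos} (hp : IsTip U ω p)
    (hω : ∀ f, f ∈ U ∨ tch ↑U f → ω f = ω' f) {i : ℕ} {f : Fc} (h : Ask U ω p i f) :
    Ask U ω' p i f := by
  obtain ⟨h1, h2, h3, h4⟩ := h
  have h5 := cong U ω ω' p hp hω i h1
  refine ⟨h5.1, by rw [h5.2]; exact h2, h3, ?_⟩
  rintro ⟨i', hi', hf⟩
  apply h4
  refine ⟨i', hi', ?_⟩
  rw [← (cong U ω ω' p hp hω i' (Ins.anti hi' h1)).2]
  exact hf

theorem IsTip.congr {U : Finset Fc} {c c' : Fc → Bool} (h : ∀ f, tch ↑U f → f ∉ U → c f = c' f)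
    {p : Pos} (hp : IsTip U c p) : IsTip U c' p := by
  obtain ⟨h1, h2, h3, h4, h5⟩ := hp
  have t1 : tch ↑U (pl p) := ⟨ph p, by exact_mod_cast h1, adjF_symm (adj_hl p)⟩
  have t2 : tch ↑U (pr p) := ⟨ph p, by exact_mod_cast h1, adjF_symm (adj_hr p)⟩
  exact ⟨h1, h2, h3, by rw [← h _ t1 h2]; exact h4, by rw [← h _ t2 h3]; exact h5⟩

theorem IsTip.mixc {U w : Finset Fc} {c : Fc → Bool} {p : Pos} (hp : IsTip U c p) :
    IsTip U (mixc U w c) p := by
  refine IsTip.congr (fun f _ hf => ?_) hp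
  unfold Pool.Agent.H75.Lv.mixc
  rw [if_neg hf]

theorem mixc_congr {U w : Finset Fc} {c c' : Fc → Bool} (h : ∀ f, tch ↑U f → f ∉ U → c f = c' f)
    (f : Fc) (hf : f ∈ U ∨ tch ↑U f) : mixc U w c f = mixc U w c' f := by
  unfold mixc
  by_cases h1 : f ∈ U
  · rw [if_pos h1, if_pos h1]
  · rw [if_neg h1, if_neg h1]
    exact h f (hf.resolve_left h1) h1

theorem vis_congr {U : Finset Fc} {c c' : Fc → Bool} (h : ∀ f, tch ↑U f → f ∉ U → c f = c' f)
    (S : Finset Fc) : vis U c S = vis U c' S := by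
  have h' : ∀ f, tch ↑U f → f ∉ U → c' f = c f := fun f h1 h2 => (h f h1 h2).symm
  unfold vis
  congr 1
  funext w
  apply propext
  constructor
  · rintro ⟨p, i, f, h1, h2, h3⟩
    exact ⟨p, i, f, IsTip.congr h h1, h2, Ask.congr (IsTip.mixc h1) (mixc_congr h) h3⟩
  · rintro ⟨p, i, f, h1, h2, h3⟩
    exact ⟨p, i, f, IsTip.congr h' h1, h2, Ask.congr (IsTip.mixc h1) (mixc_congr h') h3⟩

theorem admc : ADMC := by
  intro g s3 u U z0 c c' h
  have h1 : ∀ C : Set Fc, KC U c C = KC U c' C := fun C =>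
    KC_congr (fun f h1 h2 => h f h2 h1) (fun f _ => Iff.rfl)
  unfold Adm Pock
  simp only [h1, vis_congr h]

end Pool.Agent.H29.Lv
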